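import Pool.Agent.Helper56.SPX.Base

/-!
# Spectral products, part AMAL: uniform summability of `|Ĥ|²` over separated sets
-/

set_option autoImplicit false

open MeasureTheory Filter Topology Set FourierTransform
open scoped InnerProductSpace ENNReal SchwartzMap ContDiff

namespace Pool.Agent.Helper56.SPX.AMAL

open Pool.Agent.Helper64.SPX

variable {ι : Type} [Fintype ι]

theorem integrable_w : Integrable (fun y : E ι => ((1 + ‖y‖) ^ (Fintype.card ι + 1))⁻¹) := by
  have h := integrable_one_add_norm (E := E ι) (μ := volume) (r := (Fintype.card ι + 1 : ℕ))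
    (by rw [finrank_euclideanSpace]; push_cast; linarith)
  refine h.congr (ae_of_all _ fun y => ?_)
  show (1 + ‖y‖) ^ (-((Fintype.card ι + 1 : ℕ) : ℝ)) = _
  rw [Real.rpow_neg (by positivity), Real.rpow_natCast]

theorem pack {r : ℝ} (hr : 0 < r) : ∃ C : ℝ, 0 ≤ C ∧ ∀ S : Finset (E ι),
    Sep r (S : Set (E ι)) → ∀ x, ∑ s ∈ S, ((1 + ‖x - s‖) ^ (Fintype.card ι + 1))⁻¹ ≤ C := by
  set w : E ι → ℝ := fun y => ((1 + ‖y‖) ^ (Fintype.card ι + 1))⁻¹ with hw
  have hw0 : ∀ y, 0 ≤ w y := fun y => by positivity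
  set V : ℝ := (volume (Metric.ball (0 : E ι) (r / 2))).toReal with hV
  have hV0 : 0 < V := ENNReal.toReal_pos (Metric.measure_ball_pos _ _ (by positivity)).ne'
    measure_ball_lt_top.ne
  set D : ℝ := (1 + r / 2) ^ (Fintype.card ι + 1) with hD
  have hD0 : 0 < D := by positivity
  refine ⟨D / V * ∫ y, w y, mul_nonneg (by positivity) (integral_nonneg hw0), ?_⟩
  intro S hS x
  have hint : Integrable (fun y => w (x - y)) := integrable_w.comp_sub_left x
  have h1 : ∀ s ∈ S, V * w (x - s) ≤ D * ∫ y in Metric.ball s (r / 2), w (x - y) := by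
    intro s _
    have h2 : ∀ y ∈ Metric.ball s (r / 2), w (x - s) ≤ D * w (x - y) := by
      intro y hy
      rw [mem_ball_iff_norm] at hy
      have h3 : 1 + ‖x - y‖ ≤ (1 + r / 2) * (1 + ‖x - s‖) := by
        have h4 : ‖x - y‖ ≤ ‖x - s‖ + ‖y - s‖ := by
          calc ‖x - y‖ = ‖(x - s) - (y - s)‖ := by congr 1; abel
            _ ≤ _ := norm_sub_le _ _
        nlinarith [norm_nonneg (x - s)]
      simp only [hw, hD]
      rw [← div_eq_mul_inv, inv_eq_one_div, div_le_div_iff₀ (by positivity) (by positivity),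
        one_mul, ← mul_pow]
      exact pow_le_pow_left₀ (by positivity) h3 _
    have h5 : V = (volume (Metric.ball s (r / 2))).toReal := by
      rw [hV, Measure.addHaar_ball_center volume s]
    have h6 : ∫ _ in Metric.ball s (r / 2), w (x - s) = V * w (x - s) := by
      rw [setIntegral_const, Measure.real, ← h5, smul_eq_mul]
    rw [← h6, ← integral_const_mul]
    refine setIntegral_mono_on ?_ ?_ measurableSet_ball h2
    · exact integrableOn_const measure_ball_lt_top.ne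
    · exact (hint.const_mul D).integrableOn
  have h7 : ∑ s ∈ S, ∫ y in Metric.ball s (r / 2), w (x - y) ≤ ∫ y, w y := by
    rw [← integral_biUnion_finset S (fun s _ => measurableSet_ball) ?_
      (fun s _ => hint.integrableOn)]
    · refine (setIntegral_le_integral hint (ae_of_all _ fun y => hw0 _)).trans ?_
      rw [integral_sub_left_eq_self]
    · intro a ha b hb hab
      apply Metric.ball_disjoint_ball
      rw [dist_eq_norm]
      have := hS a ha b hb hab
      linarith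
  have h8 : V * ∑ s ∈ S, w (x - s) ≤ D * ∫ y, w y := by
    rw [Finset.mul_sum]
    calc _ ≤ ∑ s ∈ S, D * ∫ y in Metric.ball s (r / 2), w (x - y) := Finset.sum_le_sum h1
      _ = D * ∑ s ∈ S, ∫ y in Metric.ball s (r / 2), w (x - y) := by rw [Finset.mul_sum]
      _ ≤ _ := mul_le_mul_of_nonneg_left h7 hD0.le
  rw [div_mul_eq_mul_div, le_div_iff₀ hV0]
  linarith

theorem cs {X : Type*} [MeasurableSpace X] {μ : Measure X} {a b : X → ℝ} (ha : ∀ x, 0 ≤ a x)
    (i0 : Integrable a μ) (i1 : Integrable (fun x => a x * b x) μ)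
    (i2 : Integrable (fun x => a x * b x ^ 2) μ) :
    (∫ x, a x * b x ∂μ) ^ 2 ≤ (∫ x, a x ∂μ) * ∫ x, a x * b x ^ 2 ∂μ := by
  have h : ∀ t : ℝ, 0 ≤ (∫ x, a x ∂μ) * (t * t) + (-2 * ∫ x, a x * b x ∂μ) * t +
      ∫ x, a x * b x ^ 2 ∂μ := by
    intro t
    have h1 : 0 ≤ ∫ x, a x * (b x - t) ^ 2 ∂μ :=
      integral_nonneg fun x => mul_nonneg (ha x) (sq_nonneg _)
    have i3 : Integrable (fun x => t * t * a x) μ := i0.const_mul _
    have i4 : Integrable (fun x => -2 * t * (a x * b x)) μ := i1.const_mul _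
    have i5 : Integrable (fun x => t * t * a x + -2 * t * (a x * b x)) μ := i3.add i4
    have h2 : ∫ x, a x * (b x - t) ^ 2 ∂μ = (∫ x, a x ∂μ) * (t * t) +
        (-2 * ∫ x, a x * b x ∂μ) * t + ∫ x, a x * b x ^ 2 ∂μ := by
      calc ∫ x, a x * (b x - t) ^ 2 ∂μ
          = ∫ x, ((t * t * a x + -2 * t * (a x * b x)) + a x * b x ^ 2) ∂μ := by
            congr 1; ext x; ring
        _ = t * t * (∫ x, a x ∂μ) + -2 * t * (∫ x, a x * b x ∂μ) + ∫ x, a x * b x ^ 2 ∂μ := by
            rw [integral_add i5 i2, integral_add i3 i4, integral_const_mul, integral_const_mul]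
        _ = _ := by ring
    rw [← h2]
    exact h1
  have := discrim_le_zero h
  unfold discrim at this
  nlinarith

theorem norm_ft_le (H : E ι → ℂ) (z : E ι) : ‖ft H z‖ ≤ ∫ x, ‖H x‖ := by
  unfold ft
  refine (norm_integral_le_integral_norm _).trans (le_of_eq ?_)
  congr 1
  ext x
  rw [norm_mul, norm_ee, mul_one]

theorem core {H : E ι → ℂ} (hH : Bdd H) {r : ℝ} (hr : 0 < r) : ∃ K : ℝ, 0 ≤ K ∧ ∀ ρ : ℝ, 0 ≤ ρ →
    ∀ S : Finset (E ι), Sep r (S : Set (E ι)) → (∀ s ∈ S, ρ ≤ ‖s‖) →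
    ∑ s ∈ S, ‖ft H s‖ ^ 2 ≤ K * ∫ y, ‖ft H y‖ ^ 2 * min 1 ((1 + ‖y‖) / (1 + ρ)) := by
  obtain ⟨κ, hκ⟩ := kernel hH
  obtain ⟨C1, hC1, hpack⟩ := pack (ι := ι) hr
  have hHc : Continuous (ft H) := continuous_ft (integrable_of_bdd hH)
  have hκi : Integrable (fun ξ => ‖κ ξ‖) := κ.integrable.norm
  obtain ⟨C2, hC2, hdec⟩ : ∃ C2 : ℝ, 0 ≤ C2 ∧
      ∀ ξ, ‖κ ξ‖ ≤ C2 * ((1 + ‖ξ‖) ^ (Fintype.card ι + 2))⁻¹ := by
    refine ⟨2 ^ (Fintype.card ι + 2) * (Finset.Iic (Fintype.card ι + 2, 0)).sup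
      (fun m => SchwartzMap.seminorm ℝ m.1 m.2) κ, ?_, fun ξ => ?_⟩
    rotate_left
    · have h1 := SchwartzMap.one_add_le_sup_seminorm_apply (𝕜 := ℝ)
        (m := (Fintype.card ι + 2, 0)) (k := Fintype.card ι + 2) (n := 0) le_rfl le_rfl κ ξ
      rw [norm_iteratedFDeriv_zero] at h1
      rw [← div_eq_mul_inv, le_div_iff₀ (by positivity), mul_comm]
      exact h1
    · have h1 := SchwartzMap.one_add_le_sup_seminorm_apply (𝕜 := ℝ)
        (m := (Fintype.card ι + 2, 0)) (k := Fintype.card ι + 2) (n := 0) le_rfl le_rfl κ 0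
      exact le_trans (by positivity) h1
  set L : ℝ := ∫ ξ, ‖κ ξ‖ with hL
  have hL0 : 0 ≤ L := integral_nonneg fun _ => norm_nonneg _
  -- one point
  have hone : ∀ s, ‖ft H s‖ ^ 2 ≤ L * ∫ y, ‖κ (y - s)‖ * ‖ft H y‖ ^ 2 := by
    intro s
    set B : ℝ := ∫ x, ‖H x‖ with hB
    have i1 : Integrable (fun ξ => ‖κ ξ‖ * ‖ft H (s + ξ)‖) := by
      refine hκi.mul_bdd (c := B) ?_ (ae_of_all _ fun x => ?_)
      · exact (hHc.comp (by fun_prop)).norm.aestronglyMeasurable
      · rw [norm_norm]; exact norm_ft_le H _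
    have i2 : Integrable (fun ξ => ‖κ ξ‖ * ‖ft H (s + ξ)‖ ^ 2) := by
      refine hκi.mul_bdd (c := B ^ 2) ?_ (ae_of_all _ fun x => ?_)
      · exact ((hHc.comp (by fun_prop)).norm.pow 2).aestronglyMeasurable
      · rw [norm_pow, norm_norm]; exact pow_le_pow_left₀ (norm_nonneg _) (norm_ft_le H _) 2
    have h1 : ‖ft H s‖ ≤ ∫ ξ, ‖κ ξ‖ * ‖ft H (s + ξ)‖ := by
      rw [hκ s]
      refine (norm_integral_le_integral_norm _).trans (le_of_eq ?_)
      congr 1
      ext ξ
      rw [norm_mul]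
    have h2 := cs (μ := volume) (a := fun ξ => ‖κ ξ‖) (b := fun ξ => ‖ft H (s + ξ)‖)
      (fun _ => norm_nonneg _) hκi i1 i2
    have h3 : ∫ ξ, ‖κ ξ‖ * ‖ft H (s + ξ)‖ ^ 2 = ∫ y, ‖κ (y - s)‖ * ‖ft H y‖ ^ 2 := by
      rw [← integral_add_left_eq_self (μ := volume) (fun y => ‖κ (y - s)‖ * ‖ft H y‖ ^ 2) s]
      congr 1
      ext ξ
      rw [add_sub_cancel_left]
    rw [← h3]
    exact (pow_le_pow_left₀ (norm_nonneg _) h1 2).trans h2
  refine ⟨L * (C2 * C1), by positivity, ?_⟩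
  intro ρ hρ S hS hSρ
  set m : E ι → ℝ := fun y => min 1 ((1 + ‖y‖) / (1 + ρ)) with hm
  have hm0 : ∀ y, 0 ≤ m y := fun y => le_min zero_le_one (by positivity)
  have hm1 : ∀ y, m y ≤ 1 := fun y => min_le_left _ _
  have hpt : ∀ y, ∑ s ∈ S, ‖κ (y - s)‖ ≤ C2 * C1 * m y := by
    intro y
    have h1 : ∀ s ∈ S, ‖κ (y - s)‖ ≤ C2 * m y * ((1 + ‖y - s‖) ^ (Fintype.card ι + 1))⁻¹ := by
      intro s hs
      have h2 : (1 + ‖y - s‖)⁻¹ ≤ m y := by
        refine le_min (inv_le_one_of_one_le₀ (by linarith [norm_nonneg (y - s)])) ?_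
        rw [inv_eq_one_div, div_le_div_iff₀ (by positivity) (by positivity), one_mul]
        have h3 : ‖s‖ ≤ ‖y‖ + ‖y - s‖ := by
          calc ‖s‖ = ‖y - (y - s)‖ := by congr 1; abel
            _ ≤ _ := norm_sub_le _ _
        have h4 := hSρ s hs
        nlinarith [norm_nonneg y, norm_nonneg (y - s), mul_nonneg (norm_nonneg y)
          (norm_nonneg (y - s))]
      calc ‖κ (y - s)‖ ≤ C2 * ((1 + ‖y - s‖) ^ (Fintype.card ι + 2))⁻¹ := hdec _
        _ = C2 * (1 + ‖y - s‖)⁻¹ * ((1 + ‖y - s‖) ^ (Fintype.card ι + 1))⁻¹ := by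
            rw [pow_succ _ (Fintype.card ι + 1), mul_inv]; ring
        _ ≤ C2 * m y * ((1 + ‖y - s‖) ^ (Fintype.card ι + 1))⁻¹ := by
            gcongr
    calc ∑ s ∈ S, ‖κ (y - s)‖
        ≤ ∑ s ∈ S, C2 * m y * ((1 + ‖y - s‖) ^ (Fintype.card ι + 1))⁻¹ := Finset.sum_le_sum h1
      _ = C2 * m y * ∑ s ∈ S, ((1 + ‖y - s‖) ^ (Fintype.card ι + 1))⁻¹ := by
          rw [Finset.mul_sum]
      _ ≤ C2 * m y * C1 := mul_le_mul_of_nonneg_left (hpack S hS y)
          (mul_nonneg hC2 (hm0 y))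
      _ = _ := by ring
  have hsq := integrable_ft_sq hH
  have i3 : ∀ s, Integrable (fun y => ‖κ (y - s)‖ * ‖ft H y‖ ^ 2) := by
    intro s
    refine ((hκi.comp_sub_right s).mul_bdd (c := (∫ x, ‖H x‖) ^ 2) ?_ (ae_of_all _ fun x => ?_))
    · exact (hHc.norm.pow 2).aestronglyMeasurable
    · rw [norm_pow, norm_norm]; exact pow_le_pow_left₀ (norm_nonneg _) (norm_ft_le H _) 2
  calc ∑ s ∈ S, ‖ft H s‖ ^ 2 ≤ ∑ s ∈ S, L * ∫ y, ‖κ (y - s)‖ * ‖ft H y‖ ^ 2 :=
        Finset.sum_le_sum fun s _ => hone s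
    _ = L * ∫ y, ∑ s ∈ S, ‖κ (y - s)‖ * ‖ft H y‖ ^ 2 := by
        rw [← Finset.mul_sum, integral_finsetSum S (fun s _ => i3 s)]
    _ ≤ L * ∫ y, C2 * C1 * (‖ft H y‖ ^ 2 * m y) := by
        refine mul_le_mul_of_nonneg_left ?_ hL0
        refine integral_mono (integrable_finsetSum S (fun s _ => i3 s)) ?_ fun y => ?_
        · refine Integrable.const_mul ?_ _
          refine hsq.mul_bdd (c := 1) ?_ (ae_of_all _ fun y => ?_)
          · refine Continuous.aestronglyMeasurable ?_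
            exact continuous_const.min (by fun_prop)
          · rw [Real.norm_eq_abs, abs_of_nonneg (hm0 y)]; exact hm1 y
        · show ∑ s ∈ S, ‖κ (y - s)‖ * ‖ft H y‖ ^ 2 ≤ C2 * C1 * (‖ft H y‖ ^ 2 * m y)
          rw [← Finset.sum_mul]
          calc _ ≤ C2 * C1 * m y * ‖ft H y‖ ^ 2 :=
                mul_le_mul_of_nonneg_right (hpt y) (by positivity)
            _ = _ := by ring
    _ = _ := by
        rw [integral_const_mul]; ring

theorem sep_image {r : ℝ} {S : Finset (E ι)} (hS : Sep r (S : Set (E ι))) (z : E ι) :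
    Sep r ((S.map ⟨fun a => z - a, sub_right_injective⟩ : Finset (E ι)) : Set (E ι)) := by
  intro a ha b hb hab
  rw [Finset.mem_coe, Finset.mem_map] at ha hb
  obtain ⟨a', ha', rfl⟩ := ha
  obtain ⟨b', hb', rfl⟩ := hb
  have h1 := hS b' hb' a' ha' (by rintro rfl; exact hab rfl)
  show r ≤ ‖(z - a') - (z - b')‖
  rwa [sub_sub_sub_cancel_left]

theorem main : S_AMAL := by
  intro ι _ H hH r hr
  obtain ⟨K, hK, hcore⟩ := core hH hr
  constructor
  · refine ⟨K * ∫ y, ‖ft H y‖ ^ 2 * min 1 ((1 + ‖y‖) / (1 + 0)), fun S hS z => ?_⟩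
    have h1 := hcore 0 le_rfl _ (sep_image hS z) (fun s _ => norm_nonneg s)
    rw [Finset.sum_map] at h1
    exact h1
  · intro ε hε
    have hsq := integrable_ft_sq hH
    have hHc : Continuous (ft H) := continuous_ft (integrable_of_bdd hH)
    have h1 : Tendsto (fun k : ℕ => ∫ y, ‖ft H y‖ ^ 2 * min 1 ((1 + ‖y‖) / (1 + (k : ℝ)))) atTop
        (𝓝 (∫ _ : E ι, (0 : ℝ))) := by
      refine tendsto_integral_of_dominated_convergence (fun y => ‖ft H y‖ ^ 2) ?_ hsq ?_ ?_
      · intro k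
        refine Continuous.aestronglyMeasurable ?_
        refine (hHc.norm.pow 2).mul ?_
        exact continuous_const.min (by fun_prop)
      · intro k
        refine ae_of_all _ fun y => ?_
        have h2 : 0 ≤ min 1 ((1 + ‖y‖) / (1 + (k : ℝ))) := le_min zero_le_one (by positivity)
        rw [Real.norm_eq_abs, abs_of_nonneg (mul_nonneg (by positivity) h2)]
        exact mul_le_of_le_one_right (by positivity) (min_le_left _ _)
      · refine ae_of_all _ fun y => ?_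
        have h3 : Tendsto (fun k : ℕ => (1 + ‖y‖) / (1 + (k : ℝ))) atTop (𝓝 0) :=
          Tendsto.div_atTop tendsto_const_nhds
            (tendsto_atTop_add_const_left _ _ tendsto_natCast_atTop_atTop)
        have h4 := (tendsto_const_nhds (x := (1 : ℝ))).min h3
        rw [min_eq_right zero_le_one] at h4
        have h5 := h4.const_mul (‖ft H y‖ ^ 2)
        rwa [mul_zero] at h5
    rw [integral_zero] at h1
    have h6 := h1.const_mul K
    rw [mul_zero] at h6
    obtain ⟨k, hk⟩ := (h6.eventually (gt_mem_nhds hε)).exists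
    refine ⟨k, fun S hS z hz => ?_⟩
    have h7 := hcore k (Nat.cast_nonneg k) _ (sep_image hS z) (by
      intro s hs
      rw [Finset.mem_map] at hs
      obtain ⟨a, ha, rfl⟩ := hs
      exact hz a ha)
    rw [Finset.sum_map] at h7
    exact h7.trans hk.le

end Pool.Agent.Helper56.SPX.AMAL
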