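import Pool.Agent.Helper64.SPX.Spec

/-!
# Spectral products: basic facts on the Fourier transform of bounded functions of bounded support

`plancherel`: the theorem of Plancherel for `Bdd` functions.
`kernel`: `Ĥ(z) = ∫ κ(ξ) Ĥ(z + ξ) dξ` with a Schwartz function `κ`.
-/

set_option autoImplicit false

open MeasureTheory Filter Topology Set FourierTransform
open scoped InnerProductSpace ENNReal SchwartzMap ContDiff

namespace Pool.Agent.Helper56.SPX

open Pool.Agent.Helper64.SPX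

variable {ι : Type} [Fintype ι]

theorem ee_eq (θ : ℝ) : ee θ = (Real.fourierChar θ : ℂ) := by
  rw [Real.fourierChar_apply]
  unfold ee
  congr 1
  push_cast
  ring

theorem norm_ee (θ : ℝ) : ‖ee θ‖ = 1 := by
  rw [ee_eq]; exact Circle.norm_coe _

theorem ee_add (a b : ℝ) : ee (a + b) = ee a * ee b := by
  unfold ee
  rw [← Complex.exp_add]
  congr 1
  push_cast
  ring

theorem continuous_ee : Continuous ee := by
  unfold ee
  fun_prop

theorem ft_eq (H : E ι → ℂ) (z : E ι) : ft H z = 𝓕 H z := by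
  rw [Real.fourier_eq]
  unfold ft
  congr 1
  ext x
  rw [Circle.smul_def, smul_eq_mul, ← ee_eq, real_inner_comm]
  ring

theorem ft_eq' (H : E ι → ℂ) : ft H = 𝓕 H := funext (ft_eq H)

theorem memLp_of_bdd {H : E ι → ℂ} (hH : Bdd H) (p : ℝ≥0∞) : MemLp H p := by
  obtain ⟨hm, ⟨C, hC⟩, R, hR⟩ := hH
  have : IsFiniteMeasure (volume.restrict (Metric.closedBall (0 : E ι) R)) :=
    ⟨by simpa using measure_closedBall_lt_top⟩
  have h1 : MemLp H p (volume.restrict (Metric.closedBall (0 : E ι) R)) :=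
    MemLp.of_bound hm.aestronglyMeasurable C (ae_of_all _ hC)
  have h2 : MemLp ((Metric.closedBall (0 : E ι) R).indicator H) p :=
    (memLp_indicator_iff_restrict measurableSet_closedBall).2 h1
  have h3 : (Metric.closedBall (0 : E ι) R).indicator H = H := by
    ext x
    by_cases hx : x ∈ Metric.closedBall (0 : E ι) R
    · rw [indicator_of_mem hx]
    · rw [indicator_of_notMem hx]
      rw [mem_closedBall_zero_iff, not_le] at hx
      exact (hR x hx.le).symm
  rwa [h3] at h2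

theorem integrable_of_bdd {H : E ι → ℂ} (hH : Bdd H) : Integrable H :=
  memLp_one_iff_integrable.1 (memLp_of_bdd hH 1)

theorem continuous_ft {H : E ι → ℂ} (hH : Integrable H) : Continuous (ft H) := by
  rw [ft_eq']
  exact VectorFourier.fourierIntegral_continuous Real.continuous_fourierChar
    (by exact continuous_inner) hH

/-- Plancherel. -/
theorem plancherel_ae {H : E ι → ℂ} (hH : Bdd H) :
    (𝓕 (memLp_of_bdd hH 2).toLp : Lp ℂ 2 (volume : Measure (E ι))) =ᵐ[volume] ft H := by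
  set Hl : Lp ℂ 2 (volume : Measure (E ι)) := (memLp_of_bdd hH 2).toLp with hHl
  apply ae_eq_of_integral_contDiff_smul_eq
  · exact (Lp.memLp (𝓕 Hl)).locallyIntegrable one_le_two
  · exact (continuous_ft (integrable_of_bdd hH)).locallyIntegrable
  intro g hg hgs
  have hg2 : ContDiff ℝ ∞ (fun x => (g x : ℂ)) := Complex.ofRealCLM.contDiff.comp hg
  have hgs2 : HasCompactSupport (fun x => (g x : ℂ)) := hgs.comp_left (g := fun t : ℝ => (t : ℂ)) (by simp)
  set gS : 𝓢(E ι, ℂ) := hgs2.toSchwartzMap hg2 with hgS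
  have e0 : ∀ x, gS x = (g x : ℂ) := fun x => rfl
  have h1 : ∫ x, (𝓕 gS) x • Hl x =
      ∫ x, gS x • (𝓕 Hl : Lp ℂ 2 (volume : Measure (E ι))) x := by
    have h0 := congrArg (fun T => T gS) (Lp.fourier_toTemperedDistribution_eq Hl)
    simp only [TemperedDistribution.fourier_apply] at h0
    rw [Lp.toTemperedDistribution_apply, Lp.toTemperedDistribution_apply] at h0
    exact h0
  have h2 : ∫ x, g x • (𝓕 Hl : Lp ℂ 2 (volume : Measure (E ι))) x =
      ∫ x, gS x • (𝓕 Hl : Lp ℂ 2 (volume : Measure (E ι))) x := by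
    congr 1
  have h3 : ∫ x, g x • ft H x = ∫ x, gS x • 𝓕 H x := by
    rw [ft_eq']
    congr 1
  have h4 : ∫ ξ, 𝓕 (gS : E ι → ℂ) ξ • H ξ = ∫ x, gS x • 𝓕 H x := by
    have := VectorFourier.integral_bilin_fourierIntegral_eq_flip (ContinuousLinearMap.lsmul ℂ ℂ)
      (L := innerₗ (E ι)) (f := (gS : E ι → ℂ)) (g := H) Real.continuous_fourierChar
      continuous_inner (gS.integrable (μ := volume)) (integrable_of_bdd hH)
    simpa using! this
  rw [h2, h3, ← h4, ← h1]
  apply integral_congr_ae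
  filter_upwards [(memLp_of_bdd hH 2).coeFn_toLp] with x hx
  rw [hx]
  rfl

theorem memLp_ft {H : E ι → ℂ} (hH : Bdd H) : MemLp (ft H) 2 :=
  (memLp_congr_ae (plancherel_ae hH)).1 (Lp.memLp _)

theorem plancherel {H : E ι → ℂ} (hH : Bdd H) : ∫ z, ‖ft H z‖ ^ 2 = ∫ x, ‖H x‖ ^ 2 := by
  set Hl : Lp ℂ 2 (volume : Measure (E ι)) := (memLp_of_bdd hH 2).toLp with hHl
  have h1 : ⟪(𝓕 Hl : Lp ℂ 2 (volume : Measure (E ι))), 𝓕 Hl⟫_ℂ = ⟪Hl, Hl⟫_ℂ :=
    Lp.inner_fourier_eq _ _
  rw [L2.inner_def, L2.inner_def] at h1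
  have h2 : ∫ x, ⟪(𝓕 Hl : Lp ℂ 2 (volume : Measure (E ι))) x,
      (𝓕 Hl : Lp ℂ 2 (volume : Measure (E ι))) x⟫_ℂ = ∫ x, ((‖ft H x‖ ^ 2 : ℝ) : ℂ) := by
    apply integral_congr_ae
    filter_upwards [plancherel_ae hH] with x hx
    rw [inner_self_eq_norm_sq_to_K, hx]
    norm_cast
  have h3 : ∫ x, ⟪Hl x, Hl x⟫_ℂ = ∫ x, ((‖H x‖ ^ 2 : ℝ) : ℂ) := by
    apply integral_congr_ae
    filter_upwards [(memLp_of_bdd hH 2).coeFn_toLp] with x hx
    rw [inner_self_eq_norm_sq_to_K, hx]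
    norm_cast
  rw [h2, h3, integral_complex_ofReal, integral_complex_ofReal] at h1
  exact_mod_cast h1

theorem integrable_ft_sq {H : E ι → ℂ} (hH : Bdd H) : Integrable (fun z => ‖ft H z‖ ^ 2) :=
  (memLp_ft hH).integrable_norm_pow (by norm_num)

/-- `Ĥ` is reproduced by a Schwartz kernel. -/
theorem kernel {H : E ι → ℂ} (hH : Bdd H) :
    ∃ κ : 𝓢(E ι, ℂ), ∀ z, ft H z = ∫ ξ, κ ξ * ft H (z + ξ) := by
  obtain ⟨R, hR⟩ := hH.2.2
  let f : ContDiffBump (0 : E ι) := ⟨max R 1, max R 1 + 1, by positivity, by linarith⟩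
  have hf1 : ContDiff ℝ ∞ (fun x => (f x : ℂ)) := Complex.ofRealCLM.contDiff.comp f.contDiff
  have hf2 : HasCompactSupport (fun x => (f x : ℂ)) :=
    f.hasCompactSupport.comp_left (g := fun t : ℝ => (t : ℂ)) (by simp)
  set χ : 𝓢(E ι, ℂ) := hf2.toSchwartzMap hf1 with hχ
  have hχH : ∀ x, χ x * H x = H x := by
    intro x
    by_cases hx : R ≤ ‖x‖
    · rw [hR x hx, mul_zero]
    · have h1 : f x = 1 := f.one_of_mem_closedBall (by
        rw [mem_closedBall_zero_iff]
        exact (not_le.1 hx).le.trans (le_max_left _ _))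
      have h2 : χ x = 1 := by
        show (f x : ℂ) = 1
        rw [h1]; simp
      rw [h2, one_mul]
  refine ⟨𝓕⁻ χ, fun z => ?_⟩
  set G : E ι → ℂ := fun x => H x * ee (-⟪z, x⟫_ℝ) with hG
  have hGi : Integrable G := by
    refine (integrable_of_bdd hH).mul_bdd (c := 1) ?_ (ae_of_all _ fun x => (norm_ee _).le)
    refine Continuous.aestronglyMeasurable ?_
    exact continuous_ee.comp (by fun_prop)
  have h4 : ∫ ξ, 𝓕 ((𝓕⁻ χ : 𝓢(E ι, ℂ)) : E ι → ℂ) ξ • G ξ =
      ∫ x, (𝓕⁻ χ : 𝓢(E ι, ℂ)) x • 𝓕 G x := by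
    have := VectorFourier.integral_bilin_fourierIntegral_eq_flip (ContinuousLinearMap.lsmul ℂ ℂ)
      (L := innerₗ (E ι)) (f := ((𝓕⁻ χ : 𝓢(E ι, ℂ)) : E ι → ℂ)) (g := G)
      Real.continuous_fourierChar continuous_inner
      ((𝓕⁻ χ : 𝓢(E ι, ℂ)).integrable (μ := volume)) hGi
    simpa using! this
  have h5 : 𝓕 ((𝓕⁻ χ : 𝓢(E ι, ℂ)) : E ι → ℂ) = χ := by
    rw [← SchwartzMap.fourier_coe, fourier_fourierInv_eq]
  have h6 : ∀ x, 𝓕 G x = ft H (z + x) := by
    intro x
    rw [← ft_eq]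
    unfold ft
    congr 1
    ext y
    simp only [hG]
    rw [mul_assoc, ← ee_add, inner_add_left]
    congr 2
    ring
  rw [h5] at h4
  calc ft H z = ∫ x, χ x • G x := by
        unfold ft
        congr 1
        ext x
        rw [smul_eq_mul, hG]
        show _ = χ x * (H x * _)
        rw [← mul_assoc, hχH]
    _ = _ := h4
    _ = _ := by
        congr 1
        ext x
        rw [h6, smul_eq_mul]

end Pool.Agent.Helper56.SPX
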