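import Pool.Agent.Helper56.SPX.AMAL

/-!
# Spectral products, part CONT: summability and continuity of `G`
-/

set_option autoImplicit false

open MeasureTheory Filter Topology Set FourierTransform
open scoped InnerProductSpace ENNReal SchwartzMap ContDiff

namespace Pool.Agent.Helper56.SPX.CONT

open Pool.Agent.Helper64.SPX

variable {ι : Type} [Fintype ι]

theorem sep_mono {r : ℝ} {Λ : Set (E ι)} (hΛ : Sep r Λ) {T : Set (E ι)} (hT : T ⊆ Λ) : Sep r T :=
  fun a ha b hb hab => hΛ a (hT ha) b (hT hb) hab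

theorem finite_ball {r : ℝ} (hr : 0 < r) {Λ : Set (E ι)} (hΛ : Sep r Λ) (z : E ι) (R : ℝ) :
    (Λ ∩ Metric.closedBall z R).Finite := by
  obtain ⟨C, hC, hpack⟩ := AMAL.pack (ι := ι) hr
  set D : ℝ := (1 + |R|) ^ (Fintype.card ι + 1) with hD
  have hD0 : 0 < D := by positivity
  obtain ⟨N, hN⟩ := exists_nat_gt (C * D)
  by_contra hinf
  obtain ⟨S, hS, hcard⟩ := (show (Λ ∩ Metric.closedBall z R).Infinite from hinf).exists_subset_card_eq N
  have h1 := hpack S (sep_mono hΛ (hS.trans inter_subset_left)) z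
  have h2 : (N : ℝ) * D⁻¹ ≤ ∑ s ∈ S, ((1 + ‖z - s‖) ^ (Fintype.card ι + 1))⁻¹ := by
    rw [← hcard, ← nsmul_eq_mul]
    refine Finset.card_nsmul_le_sum _ _ _ fun s hs => ?_
    have h3 := (hS hs).2
    rw [mem_closedBall_iff_norm, norm_sub_rev] at h3
    rw [hD]
    gcongr
    exact h3.trans (le_abs_self R)
  have h4 : (N : ℝ) * D⁻¹ ≤ C := h2.trans h1
  rw [← div_eq_mul_inv, div_le_iff₀ hD0] at h4
  linarith

omit [Fintype ι] in
theorem sum_le_of_subtype {Λ : Set (E ι)} {f : E ι → ℝ} {C : ℝ}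
    (h : ∀ S : Finset (E ι), (S : Set (E ι)) ⊆ Λ → ∑ a ∈ S, f a ≤ C) (T : Finset Λ) :
    ∑ a ∈ T, f a ≤ C := by
  classical
  have h1 := h (T.map (Function.Embedding.subtype _)) (by
    intro x hx
    rw [Finset.mem_coe, Finset.mem_map] at hx
    obtain ⟨y, _, rfl⟩ := hx
    exact y.2)
  rw [Finset.sum_map] at h1
  exact h1

theorem main (h1 : S_AMAL) : S_CONT := by
  intro ι _ H hH r hr Λ hΛ
  obtain ⟨⟨C, hC⟩, htail⟩ := h1 ι H hH r hr
  have hsum : ∀ z, Summable (fun a : Λ => ‖ft H (z - a)‖ ^ 2) := fun z =>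
    summable_of_sum_le (fun _ => by positivity) (fun T => sum_le_of_subtype
      (f := fun a => ‖ft H (z - a)‖ ^ 2) (fun S hS => hC S (sep_mono hΛ hS) z) T)
  refine ⟨hsum, ?_⟩
  have hHc : Continuous (ft H) := continuous_ft (integrable_of_bdd hH)
  rw [Metric.continuous_iff']
  intro z0 ε hε
  obtain ⟨ρ, hρ⟩ := htail (ε / 4) (by positivity)
  have hfin : (Λ ∩ Metric.closedBall z0 (ρ + 1)).Finite := finite_ball hr hΛ z0 (ρ + 1)
  have hfin' : ({a : Λ | (a : E ι) ∈ Metric.closedBall z0 (ρ + 1)}).Finite := by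
    refine Finite.of_finite_image (f := ((↑) : Λ → E ι)) (hfin.subset ?_)
      Subtype.val_injective.injOn
    rintro x ⟨a, ha, rfl⟩
    exact ⟨a.2, ha⟩
  set T : Finset Λ := hfin'.toFinset with hT
  -- the tails are small near z0
  have htl : ∀ z, ‖z - z0‖ < 1 → |G Λ H z - ∑ a ∈ T, ‖ft H (z - a)‖ ^ 2| ≤ ε / 4 := by
    intro z hz
    have h2 := (hsum z).sum_add_tsum_subtype_compl T
    have h3 : G Λ H z - ∑ a ∈ T, ‖ft H (z - a)‖ ^ 2 =
        ∑' a : {a : Λ // a ∉ T}, ‖ft H (z - a)‖ ^ 2 := by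
      unfold G
      rw [← h2]; ring
    rw [h3, abs_of_nonneg (tsum_nonneg fun _ => by positivity)]
    refine Real.tsum_le_of_sum_le (fun _ => by positivity) fun U => ?_
    have h4 := hρ (U.map ⟨fun a : {a : Λ // a ∉ T} => ((a : Λ) : E ι),
      fun a b hab => Subtype.ext (Subtype.ext hab)⟩) (sep_mono hΛ (by
        intro x hx
        rw [Finset.mem_coe, Finset.mem_map] at hx
        obtain ⟨y, _, rfl⟩ := hx
        exact y.1.2)) z (by
        intro x hx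
        rw [Finset.mem_map] at hx
        obtain ⟨y, _, rfl⟩ := hx
        have h5 : ¬ (y.1 ∈ hfin'.toFinset) := y.2
        rw [Finite.mem_toFinset, mem_ofPred_eq, mem_closedBall_iff_norm, not_le] at h5
        show ρ ≤ ‖z - ((y : Λ) : E ι)‖
        have h6 : ‖((y : Λ) : E ι) - z0‖ ≤ ‖z - ((y : Λ) : E ι)‖ + ‖z - z0‖ := by
          calc ‖((y : Λ) : E ι) - z0‖ = ‖(z - z0) - (z - ((y : Λ) : E ι))‖ := by congr 1; abel
            _ ≤ ‖z - z0‖ + ‖z - ((y : Λ) : E ι)‖ := norm_sub_le _ _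
            _ = _ := add_comm _ _
        linarith)
    rw [Finset.sum_map] at h4
    exact h4
  have hcont : Continuous (fun z => ∑ a ∈ T, ‖ft H (z - a)‖ ^ 2) := by
    refine continuous_finsetSum _ fun a _ => ?_
    exact ((hHc.comp (by fun_prop)).norm.pow 2)
  have h7 : ∀ᶠ z in 𝓝 z0, dist (∑ a ∈ T, ‖ft H (z - a)‖ ^ 2)
      (∑ a ∈ T, ‖ft H (z0 - a)‖ ^ 2) < ε / 4 :=
    (Metric.continuous_iff'.1 hcont) z0 (ε / 4) (by positivity)
  have h8 : ∀ᶠ z in 𝓝 z0, ‖z - z0‖ < 1 := by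
    have := Metric.ball_mem_nhds z0 one_pos
    filter_upwards [this] with z hz
    rwa [mem_ball_iff_norm] at hz
  filter_upwards [h7, h8] with z h9 h10
  have h11 := htl z h10
  have h12 := htl z0 (by simp)
  rw [Real.dist_eq] at h9 ⊢
  have h13 : G Λ H z - G Λ H z0 = (G Λ H z - ∑ a ∈ T, ‖ft H (z - a)‖ ^ 2) -
      (G Λ H z0 - ∑ a ∈ T, ‖ft H (z0 - a)‖ ^ 2) +
      (∑ a ∈ T, ‖ft H (z - a)‖ ^ 2 - ∑ a ∈ T, ‖ft H (z0 - a)‖ ^ 2) := by ring
  rw [h13]
  rw [abs_le] at h11 h12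
  rw [abs_lt] at h9 ⊢
  constructor <;> linarith [h9.1, h9.2, h11.1, h11.2, h12.1, h12.2]

end Pool.Agent.Helper56.SPX.CONT
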